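import Mathlib

set_option autoImplicit false

namespace Pool.Agent.Results.MP_205740_an.Disproof

open Real MeasureTheory

def IsTrig (n : ℕ) (p : ℝ → ℝ) : Prop :=
  ∃ a b : ℕ → ℝ, ∀ θ : ℝ,
    p θ = ∑ k ∈ Finset.range (n + 1), (a k * cos (k * θ) + b k * sin (k * θ))

def IsWeight (W : ℝ → ℝ) : Prop :=
  Measurable W ∧ Function.Periodic W (2 * π) ∧ (∀ θ, 0 ≤ W θ) ∧
    IntervalIntegrable W volume (-π) π ∧ 0 < ∫ θ in (-π)..π, W θ

def HasQuad (W : ℝ → ℝ) (n N : ℕ) : Prop :=
  ∃ (t : Fin N → ℝ) (l : ℝ), Monotone t ∧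
    ∀ p : ℝ → ℝ, IsTrig n p → ∫ θ in (-π)..π, p θ * W θ = l * ∑ i, p (t i)

noncomputable def I (n : ℕ) : ℝ := ∫ θ in (-π)..π, cos θ ^ n

lemma I_succ (n : ℕ) : I (n + 2) = (n + 1) / (n + 2) * I n := by
  unfold I
  rw [integral_cos_pow]
  simp

lemma I_odd (k : ℕ) : I (2 * k + 1) = 0 := by
  induction k with
  | zero => simp [I]
  | succ k ih =>
    rw [show 2 * (k + 1) + 1 = (2 * k + 1) + 2 by ring, I_succ, ih, mul_zero]

lemma I_pos (k : ℕ) : 0 < I (2 * k) := by
  induction k with
  | zero =>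
    have := pi_pos
    simp [I]; linarith
  | succ k ih =>
    rw [show 2 * (k + 1) = 2 * k + 2 by ring, I_succ]
    positivity

lemma S_zero (n : ℕ) : ∫ θ in (-π)..π, sin θ * cos θ ^ n = 0 := by
  have h := intervalIntegral.integral_comp_neg (a := -π) (b := π)
    (fun θ => sin θ * cos θ ^ n)
  simp only [sin_neg, cos_neg, neg_mul, neg_neg, intervalIntegral.integral_neg] at h
  linarith

lemma poly_int (c : ℕ → ℝ) (d : ℕ → ℝ) (m n : ℕ) :
    ∫ θ in (-π)..π, ∑ j ∈ Finset.range m, (c j * cos θ ^ (n + j) + d j * (sin θ * cos θ ^ (n + j)))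
      = ∑ j ∈ Finset.range m, c j * I (n + j) := by
  rw [intervalIntegral.integral_finsetSum]
  · refine Finset.sum_congr rfl fun j _ => ?_
    rw [intervalIntegral.integral_add, intervalIntegral.integral_const_mul,
      intervalIntegral.integral_const_mul, S_zero, mul_zero, add_zero]
    · rfl
    · exact Continuous.intervalIntegrable (by fun_prop) _ _
    · exact Continuous.intervalIntegrable (by fun_prop) _ _
  · intro j _
    exact Continuous.intervalIntegrable (by fun_prop) _ _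

lemma four (k : ℕ) : HasQuad (fun θ => cos θ ^ (2 * k)) 2 4 := by
  set c : ℝ := k / (k + 1) with hc
  have hk : (0 : ℝ) < k + 1 := by positivity
  have hc0 : 0 ≤ c := by positivity
  have hc1 : c ≤ 1 := by rw [hc, div_le_one hk]; linarith
  set φ : ℝ := arccos c / 2 with hφ
  have h0 : 0 ≤ φ := by have := arccos_nonneg c; linarith
  have h1 : φ ≤ π / 2 := by have := arccos_le_pi c; linarith
  have h2 : cos (2 * φ) = c := by
    rw [show 2 * φ = arccos c by linarith]; exact cos_arccos (by linarith) hc1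
  refine ⟨![-φ, φ, π - φ, π + φ], I (2 * k) / 4, ?_, ?_⟩
  · rw [Fin.monotone_iff_le_succ]
    intro i
    fin_cases i <;> simp <;> linarith
  · rintro p ⟨a, b, hp⟩
    have e1 : ∀ θ, p θ * cos θ ^ (2 * k) =
        ∑ j ∈ Finset.range 3, ((fun j => if j = 0 then a 0 - a 2 else if j = 1 then a 1
          else 2 * a 2) j * cos θ ^ (2 * k + j) +
          (fun j => if j = 0 then b 1 else if j = 1 then 2 * b 2 else 0) j *
            (sin θ * cos θ ^ (2 * k + j))) := by
      intro θ
      rw [hp]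
      simp [Finset.sum_range_succ, cos_two_mul, sin_two_mul]
      ring
    simp_rw [e1]
    rw [poly_int]
    have e2 : ∑ i, p (![-φ, φ, π - φ, π + φ] i) = 4 * (a 0 + a 2 * c) := by
      simp only [Fin.sum_univ_four, hp]
      simp [Finset.sum_range_succ, mul_sub, mul_add, cos_sub, sin_sub, cos_add, sin_add, h2]
      ring
    rw [e2]
    simp [Finset.sum_range_succ, I_odd, I_succ]
    rw [hc]
    field_simp
    ring

lemma sgn_approx (x : ℝ) : ∃ s : ℤ, |cos x - s| ≤ sin x ^ 2 := by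
  have h1 := cos_le_one x
  have h2 := neg_one_le_cos x
  rw [sin_sq]
  rcases le_total 0 (cos x) with h | h
  · refine ⟨1, ?_⟩
    rw [abs_le]; push_cast; constructor <;> nlinarith
  · refine ⟨-1, ?_⟩
    rw [abs_le]; push_cast; constructor <;> nlinarith

lemma none (a : ℝ) (ha : 0 < a) (K N : ℕ) (hK : 0 < K) (hN : N ≤ K) :
    ¬ HasQuad (fun θ => a * (1 + 1 / (2 * K) * cos θ) * cos θ ^ (2 * (2 * K))) 2 N := by
  rintro ⟨t, l, -, h⟩
  set r : ℝ := 1 / (2 * K) with hr
  set n : ℕ := 2 * (2 * K) with hn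
  have hI : 0 < I n := I_pos _
  have hKp : (0 : ℝ) < K := by exact_mod_cast hK
  have hodd1 : I (n + 1) = 0 := I_odd _
  have hodd3 : I (n + 3) = 0 := by
    rw [show n + 3 = (n + 1) + 2 by ring, I_succ, hodd1, mul_zero]
  have hnK : (n : ℝ) = 4 * K := by rw [hn]; push_cast; ring
  have key : ∀ c : ℕ → ℝ, ∀ p : ℝ → ℝ, IsTrig 2 p →
      (∀ θ, p θ * (a * (1 + r * cos θ) * cos θ ^ n) =
        ∑ j ∈ Finset.range 4, c j * cos θ ^ (n + j)) →
      c 0 * I n + c 2 * ((n + 1) / (n + 2) * I n) = l * ∑ i, p (t i) := by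
    intro c p hp e
    rw [← h p hp]
    have := poly_int c (fun _ => 0) 4 n
    simp only [zero_mul, add_zero] at this
    simp_rw [e]
    rw [this]
    simp [Finset.sum_range_succ, hodd1, hodd3, I_succ]
  have k0 := key (fun j => if j = 0 then a else if j = 1 then a * r else 0) (fun _ => 1)
    ⟨fun j => if j = 0 then 1 else 0, fun _ => 0, fun θ => by simp [Finset.sum_range_succ]⟩
    (fun θ => by simp [Finset.sum_range_succ]; ring)
  have k1 := key (fun j => if j = 1 then a else if j = 2 then a * r else 0) (fun θ => cos θ)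
    ⟨fun j => if j = 1 then 1 else 0, fun _ => 0, fun θ => by simp [Finset.sum_range_succ]⟩
    (fun θ => by simp [Finset.sum_range_succ]; ring)
  have k2 := key (fun j => if j = 0 then a else if j = 1 then a * r else if j = 2 then -a
      else -(a * r)) (fun θ => sin θ ^ 2)
    ⟨fun j => if j = 0 then 1 / 2 else if j = 2 then -(1 / 2) else 0, fun _ => 0, fun θ => by
      simp [Finset.sum_range_succ, cos_two_mul, sin_sq]; ring⟩
    (fun θ => by simp [Finset.sum_range_succ, sin_sq]; ring)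
  simp at k0 k1 k2
  choose s hs using sgn_approx
  have hb : |∑ i, cos (t i) - ((∑ i, s (t i) : ℤ) : ℝ)| ≤ ∑ i, sin (t i) ^ 2 := by
    push_cast
    rw [← Finset.sum_sub_distrib]
    exact (Finset.abs_sum_le_sum_abs _ _).trans (Finset.sum_le_sum fun i _ => hs _)
  set j : ℤ := ∑ i, s (t i)
  set C : ℝ := ∑ i, cos (t i)
  set S : ℝ := ∑ i, sin (t i) ^ 2
  have hlN : 0 < l * N := by rw [← k0]; positivity
  have hNp : (0 : ℝ) < N := by
    rcases (Nat.cast_nonneg (α := ℝ) N).eq_or_lt with h0 | h0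
    · rw [← h0] at hlN; simp at hlN
    · exact h0
  have hl : 0 < l := (mul_pos_iff_of_pos_right hNp).1 hlN
  have hNK : (N : ℝ) ≤ K := by exact_mod_cast hN
  have hC : C = N * ((4 * K + 1) / (2 * K * (4 * K + 2))) := by
    have : l * C = l * (N * ((4 * K + 1) / (2 * K * (4 * K + 2)))) := by
      rw [← k1, ← mul_assoc l, ← k0, hnK, hr]; field_simp
    exact mul_left_cancel₀ hl.ne' this
  have hS : S = N * (1 / (4 * K + 2)) := by
    have : l * S = l * (N * (1 / (4 * K + 2))) := by
      rw [← k2, ← mul_assoc l, ← k0, hnK]; field_simp; ring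
    exact mul_left_cancel₀ hl.ne' this
  have hK1 : (1 : ℝ) ≤ K := by exact_mod_cast hK
  rw [abs_le] at hb
  have hlt : S < C := by
    rw [hC, hS]
    refine mul_lt_mul_of_pos_left ?_ hNp
    rw [div_lt_div_iff₀ (by positivity) (by positivity)]
    nlinarith
  have hlt2 : C + S < 1 := by
    have e : C + S = N * ((6 * K + 1) / (2 * K * (4 * K + 2))) := by
      rw [hC, hS]; field_simp; ring
    rw [e]
    calc (N : ℝ) * ((6 * K + 1) / (2 * K * (4 * K + 2)))
        ≤ K * ((6 * K + 1) / (2 * K * (4 * K + 2))) := by gcongr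
      _ = (6 * K + 1) / (2 * (4 * K + 2)) := by field_simp
      _ < 1 := by rw [div_lt_one (by positivity)]; linarith
  have a1 : (0 : ℝ) < j := by linarith
  have a2 : (j : ℝ) < 1 := by linarith
  have b1 : 0 < j := by exact_mod_cast a1
  have b2 : j < 1 := by exact_mod_cast a2
  omega

theorem result (m M : ℝ) (hm : 0 < m) (hM : m < M) (K : ℕ) :
    ∃ W h : ℝ → ℝ, IsWeight W ∧ Continuous W ∧ Continuous h ∧ Function.Periodic h (2 * π) ∧
      (∀ θ, m < h θ ∧ h θ < M) ∧ IsWeight (fun θ => h θ * W θ) ∧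
      HasQuad W 2 4 ∧ ∀ N ≤ K, ¬ HasQuad (fun θ => h θ * W θ) 2 N := by
  obtain ⟨L, hL⟩ := exists_nat_gt ((M + m) / (M - m))
  set J : ℕ := K + L + 1 with hJ
  have hJp : (0 : ℝ) < J := by positivity
  have hJL : (L : ℝ) ≤ J := by rw [hJ]; push_cast; linarith [Nat.cast_nonneg (α := ℝ) K]
  set a : ℝ := (m + M) / 2 with ha
  have hap : 0 < a := by rw [ha]; linarith
  have hr : a * (1 / (2 * J)) < (M - m) / 2 := by
    rw [div_lt_iff₀ (by linarith)] at hL
    rw [mul_one_div, div_lt_iff₀ (by positivity)]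
    nlinarith
  have hbd : ∀ θ, m < a * (1 + 1 / (2 * J) * cos θ) ∧ a * (1 + 1 / (2 * J) * cos θ) < M := by
    intro θ
    have h1 := cos_le_one θ
    have h2 := neg_one_le_cos θ
    have h3 : 0 < a * (1 / (2 * J)) := by positivity
    constructor <;> nlinarith
  have hnn : ∀ θ, 0 ≤ cos θ ^ (2 * (2 * J)) := fun θ => by rw [pow_mul]; positivity
  refine ⟨fun θ => cos θ ^ (2 * (2 * J)), fun θ => a * (1 + 1 / (2 * J) * cos θ),
    ⟨by fun_prop, fun θ => by simp, hnn, Continuous.intervalIntegrable (by fun_prop) _ _,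
      I_pos _⟩, by fun_prop, by fun_prop, fun θ => by simp, hbd,
    ⟨by fun_prop, fun θ => by simp, fun θ => mul_nonneg (by linarith [(hbd θ).1]) (hnn θ),
      Continuous.intervalIntegrable (by fun_prop) _ _, ?_⟩, four _,
    fun N hN => none a hap J N (by omega) (by omega)⟩
  have := poly_int (fun j => if j = 0 then a else a * (1 / (2 * J))) (fun _ => 0) 2 (2 * (2 * J))
  simp only [zero_mul, add_zero] at this
  have e : ∀ θ, a * (1 + 1 / (2 * J) * cos θ) * cos θ ^ (2 * (2 * J)) =
      ∑ j ∈ Finset.range 2, (fun j => if j = 0 then a else a * (1 / (2 * J))) j *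
        cos θ ^ (2 * (2 * J) + j) := fun θ => by simp [Finset.sum_range_succ]; ring
  simp_rw [e]
  rw [this]
  have := I_pos (2 * J)
  simp [Finset.sum_range_succ, I_odd]
  positivity

end Pool.Agent.Results.MP_205740_an.Disproof
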